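import Pool.Agent.H280R2.RP.Q12

set_option autoImplicit false

namespace Pool.Agent.Results.MP_d975fc_co.LocalMax

/-- For every odd `n ≥ 3` the regular `n`-gon of circumradius `1 / cos (π / (2 n))` (diameter `2`)
is a strict (up to rigid motions) local maximiser of the product of distances under the constraint
that all distances are at most `2`. -/
theorem result :
    ∀ n : ℕ, Odd n → 3 ≤ n → ∃ ε : ℝ, 0 < ε ∧ ∀ z : Fin n → ℂ,
      (∀ i : Fin n, ‖z i - ((1 / Real.cos (Real.pi / (2 * (n : ℝ))) : ℝ) : ℂ) *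
        Complex.exp (2 * (Real.pi : ℂ) * Complex.I * (i.val : ℂ) / (n : ℂ))‖ < ε) →
      (∀ i j : Fin n, ‖z i - z j‖ ≤ 2) →
      (∏ i : Fin n, ∏ j ∈ Finset.Ioi i, ‖z i - z j‖) ≤
        (∏ i : Fin n, ∏ j ∈ Finset.Ioi i,
          ‖((1 / Real.cos (Real.pi / (2 * (n : ℝ))) : ℝ) : ℂ) *
              Complex.exp (2 * (Real.pi : ℂ) * Complex.I * (i.val : ℂ) / (n : ℂ)) -
            ((1 / Real.cos (Real.pi / (2 * (n : ℝ))) : ℝ) : ℂ) *
              Complex.exp (2 * (Real.pi : ℂ) * Complex.I * (j.val : ℂ) / (n : ℂ))‖) ∧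
      ((∏ i : Fin n, ∏ j ∈ Finset.Ioi i, ‖z i - z j‖) =
        (∏ i : Fin n, ∏ j ∈ Finset.Ioi i,
          ‖((1 / Real.cos (Real.pi / (2 * (n : ℝ))) : ℝ) : ℂ) *
              Complex.exp (2 * (Real.pi : ℂ) * Complex.I * (i.val : ℂ) / (n : ℂ)) -
            ((1 / Real.cos (Real.pi / (2 * (n : ℝ))) : ℝ) : ℂ) *
              Complex.exp (2 * (Real.pi : ℂ) * Complex.I * (j.val : ℂ) / (n : ℂ))‖) →
        ∃ a b : ℂ, ‖a‖ = 1 ∧ ∀ i : Fin n, z i =
          a * (((1 / Real.cos (Real.pi / (2 * (n : ℝ))) : ℝ) : ℂ) *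
            Complex.exp (2 * (Real.pi : ℂ) * Complex.I * (i.val : ℂ) / (n : ℂ))) + b) :=
  fun n _ hn => Pool.Agent.H280R2.RP.local_max n hn

end Pool.Agent.Results.MP_d975fc_co.LocalMax
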