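import Pool.Agent.H280R2.RP.R9

set_option autoImplicit false

namespace Pool.Agent.Results.MP_d975fc_co.SmallOdd

/-- For odd `n ≤ 11`: among all configurations of `n` points with pairwise distances at most `2`,
the regular `n`-gon of circumradius `1 / cos (π / (2 n))` maximises the product of distances. -/
theorem result :
    ∀ n : ℕ, Odd n → n ≤ 11 → ∀ z : Fin n → ℂ, (∀ i j : Fin n, ‖z i - z j‖ ≤ 2) →
      (∏ i : Fin n, ∏ j ∈ Finset.Ioi i, ‖z i - z j‖) ≤
        ∏ i : Fin n, ∏ j ∈ Finset.Ioi i,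
          ‖((1 / Real.cos (Real.pi / (2 * (n : ℝ))) : ℝ) : ℂ) *
              Complex.exp (2 * (Real.pi : ℂ) * Complex.I * (i.val : ℂ) / (n : ℂ)) -
            ((1 / Real.cos (Real.pi / (2 * (n : ℝ))) : ℝ) : ℂ) *
              Complex.exp (2 * (Real.pi : ℂ) * Complex.I * (j.val : ℂ) / (n : ℂ))‖ :=
  fun n ho hn z hz => Pool.Agent.H280R2.RP.small11 n ho hn z hz

end Pool.Agent.Results.MP_d975fc_co.SmallOdd
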